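import Pool.Agent.KS6_88.WF.Smooth

set_option autoImplicit false

/-!
# Reflected wave fronts: equidistribution in all radially symmetric domains

The bounded domains with smooth boundary which are radially symmetric about a point `c` are the balls
and the spherical shells around `c`.  In such a domain the light emitted from a point `P ≠ c`
*equidistributes* (`LightEquidistributes`, in `Pool/Agent/KS6_88/WF/Defs.lean`): the distribution of
the photons emitted uniformly in all directions (or with any integrable intensity) converges weakly,
as the time tends to infinity, to a probability measure which gives positive mass to each nonempty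
open subset of the domain, and which is the average over the directions of the time averages along
the single paths.  This is stronger than the density of the fronts, which therefore become dense if
and only if `P ≠ c`.

Proof.  In the plane of its path a photon moves quasi-periodically: its position is a continuous
function of `z + t ω mod 1` on a two-dimensional torus, where the frequency vector `ω` is an explicit
function of the distance of the path from the centre.  For each nonzero integer vector `k` the law of
`k · ω` is absolutely continuous, since its derivative vanishes only on a null set.  So Fourier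
expansion on the torus and the Riemann-Lebesgue lemma apply.
-/

namespace Pool.Agent.Results.MP_67b65f_an.Equidistribution

open Set MeasureTheory
open Pool.Agent.H800R2 Pool.Agent.KS6_88.WF

/-- Let `n ≥ 2`, `Ω ⊆ ℝⁿ` and `c ∈ ℝⁿ`.

1. `Ω` is a bounded domain with smooth boundary which is radially symmetric about `c` if and only if it
   is a ball `{‖x - c‖ < r}` or a spherical shell `{r₁ < ‖x - c‖ < r₂}`, `0 < r₁ < r₂`.
2. If so, then for each `P` in `Ω` other than `c` the light from `P` equidistributes in `Ω`, and for
   each `P` in `Ω` the fronts from `P` become dense if and only if `P ≠ c`. -/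
theorem result (n : ℕ) (hn : 2 ≤ n) (Ω : Set (Euc n)) (c : Euc n) :
    ((IsSmoothDomain Ω ∧ ∀ x y : Euc n, ‖x - c‖ = ‖y - c‖ → x ∈ Ω → y ∈ Ω) ↔
      ((∃ r, 0 < r ∧ Ω = Metric.ball c r) ∨
        ∃ r₁ r₂ : ℝ, 0 < r₁ ∧ r₁ < r₂ ∧ Ω = {x | r₁ < ‖x - c‖ ∧ ‖x - c‖ < r₂})) ∧
    (IsSmoothDomain Ω → (∀ x y : Euc n, ‖x - c‖ = ‖y - c‖ → x ∈ Ω → y ∈ Ω) →
      ∀ P ∈ Ω, (P ≠ c → LightEquidistributes Ω P) ∧ (FrontsBecomeDense Ω P ↔ P ≠ c)) :=
  ⟨radial_iff hn Ω c, fun hΩ hrad _ hP => radial_main hn hΩ hrad hP⟩

end Pool.Agent.Results.MP_67b65f_an.Equidistribution
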