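import Pool.Agent.KS6_90.PD.Main

/-!
# Every domain can be darkened almost completely by removing a set of small measure

Q1 asks whether the fronts from a generic point of a bounded domain with smooth boundary become dense.
We show that this fails, for ALL points at once and in the strongest sense, in a domain which is obtained
from an arbitrary domain by the removal of a compact set of arbitrarily small measure inside an
arbitrarily small open set: then the light of every point reaches, over all times, only a small part
(in measure) of this open set.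

The obstacle in a ball of radius `ρ` (`Pool.Agent.KS6_90.PD.md`) consists of two disjoint smooth bodies: a
bottle, the thin shell `(s + (y + g / 2)² - 1 - g² / 4)² ≤ -y` (`y` the height and `s` the square of the
distance from the axis), whose opening is the disc `y = 0`, `s < 1`, and a cap, whose inner surface for
`y ≥ 0` is the half `s / 10 + y² / 9 = 1` of the spheroid with the focal circle `y = 0`, `s = 1`, the lip
of the bottle. Light which enters the cap crosses the plane `y = 0` outside the focal disc, and after
reflections at the cap it crosses it again outside the focal disc; so it never enters the bottle. The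
bottle with the parameter `g → ∞` fills almost the whole ball, and by Besicovitch's covering theorem
finitely many such balls fill almost the whole open set.

Definitions (`Pool.Graph.R_seed8.H800R2.Front`): `IsSmoothDomain Ω`: bounded, connected, nonempty, open,
with a `C^∞` defining function near every boundary point; `front Ω P t`: the positions at time `t` of the
photons which start at `P` with unit velocity, move along straight lines in `Ω` and are reflected
optically at the boundary, which they hit transversally; `FrontsBecomeDense Ω P`: for every `ε > 0` the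
fronts `front Ω P t` are `ε`-dense in `Ω` for all large `t`.
-/

set_option autoImplicit false

open Set MeasureTheory Pool.Agent.H800R2

namespace Pool.Agent.Results.MP_67b65f_an.TotalDarkness

/-- Let `Ω` be any bounded domain with smooth boundary in `ℝⁿ`, `n ≥ 2`, let `U ⊆ Ω` be open and
nonempty and `ε > 0`. There are a compact set `K ⊆ U` of measure at most `ε` such that `Ω \ K` is again a
bounded domain with smooth boundary, and finitely many pairwise disjoint nonempty open sets
`V i ⊆ U \ K` of measure at most `ε`, which cover `U` up to measure `ε`, such that for EVERY point `P` of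
`Ω \ K`:
* of any two different sets `V i`, `V j`, at least one is met by no front from `P`, at any time;
* all the fronts from `P`, over all times, miss a nonempty open set `W ⊆ U \ K` with
  `volume (U \ W) ≤ ε`; in particular their union meets `U` in a set of measure at most `ε`;
* the fronts from `P` do not become dense. -/
theorem result (n : ℕ) (hn : 2 ≤ n) (Ω U : Set (Euc n)) (hΩ : IsSmoothDomain Ω) (hU : IsOpen U)
    (hne : U.Nonempty) (hUΩ : U ⊆ Ω) (ε : ℝ) (hε : 0 < ε) :
    ∃ (K : Set (Euc n)) (m : ℕ) (V : Fin m → Set (Euc n)),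
      IsCompact K ∧ K ⊆ U ∧ volume K ≤ ENNReal.ofReal ε ∧ IsSmoothDomain (Ω \ K) ∧
      (∀ i, IsOpen (V i) ∧ (V i).Nonempty ∧ V i ⊆ U \ K ∧ volume (V i) ≤ ENNReal.ofReal ε) ∧
      (∀ i j, i ≠ j → Disjoint (V i) (V j)) ∧ volume (U \ ⋃ i, V i) ≤ ENNReal.ofReal ε ∧
      ∀ P ∈ Ω \ K,
        (∀ i j, i ≠ j → (∀ t, Disjoint (front (Ω \ K) P t) (V i)) ∨
          ∀ t, Disjoint (front (Ω \ K) P t) (V j)) ∧
        (∃ W : Set (Euc n), IsOpen W ∧ W.Nonempty ∧ W ⊆ U \ K ∧
          volume (U \ W) ≤ ENNReal.ofReal ε ∧ ∀ t, Disjoint (front (Ω \ K) P t) W) ∧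
        volume ((⋃ t, front (Ω \ K) P t) ∩ U) ≤ ENNReal.ofReal ε ∧
        ¬ FrontsBecomeDense (Ω \ K) P := by
  have hUf : volume U ≠ ⊤ := (hΩ.isBounded.subset hUΩ).measure_lt_top.ne
  have hU0 : 0 < (volume U).toReal := ENNReal.toReal_pos (hU.measure_pos volume hne).ne' hUf
  obtain ⟨δ, hδ⟩ : ∃ δ, δ = min ε (volume U).toReal / 4 := ⟨_, rfl⟩
  have hδ0 : 0 < δ := by rw [hδ]; positivity
  have hδ1 : 4 * δ ≤ ε := by
    have := min_le_left ε (volume U).toReal
    rw [hδ]; linarith
  have hδ2 : 4 * δ ≤ (volume U).toReal := by
    have := min_le_right ε (volume U).toReal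
    rw [hδ]; linarith
  obtain ⟨K, m, V, h1, h2, h3, h4, h5, h6, h7, h8⟩ :=
    Pool.Agent.KS6_90.PD.main hn hΩ hU hUΩ hδ0
  have hle : ENNReal.ofReal δ ≤ ENNReal.ofReal ε := ENNReal.ofReal_le_ofReal (by linarith)
  have h7' : volume (U \ ⋃ i, V i) ≤ ENNReal.ofReal δ :=
    h7.trans (ENNReal.ofReal_le_ofReal (by linarith))
  refine ⟨K, m, V, h1, h2, h3.trans hle, h4,
    fun i => ⟨(h5 i).1, (h5 i).2.1, (h5 i).2.2.1, (h5 i).2.2.2.trans hle⟩, h6, h7'.trans hle,
    fun P hP => ⟨h8 P hP, ?_⟩⟩
  obtain ⟨W, w1, w2, w3, w4⟩ := Pool.Agent.KS6_90.PD.dark_part (Ω := Ω) (U := U) (K := K)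
    (V := V) (η := ENNReal.ofReal δ) (fun i => ⟨(h5 i).1, (h5 i).2.2.1, (h5 i).2.2.2⟩) h7'
    (h8 P hP)
  rw [← ENNReal.ofReal_add hδ0.le hδ0.le] at w3
  have w3' : volume (U \ W) ≤ ENNReal.ofReal ε :=
    w3.trans (ENNReal.ofReal_le_ofReal (by linarith))
  have hWne : W.Nonempty := by
    rw [nonempty_iff_ne_empty]
    intro hW
    rw [hW, sdiff_empty, ← ENNReal.ofReal_toReal hUf] at w3
    have := (ENNReal.ofReal_le_ofReal_iff (by positivity)).1 w3
    linarith
  refine ⟨⟨W, w1, hWne, w2, w3', w4⟩, (measure_mono ?_).trans w3', ?_⟩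
  · rintro q ⟨hq, hqU⟩
    refine ⟨hqU, fun hqW => ?_⟩
    obtain ⟨t, ht⟩ := mem_iUnion.1 hq
    exact disjoint_left.1 (w4 t) ht hqW
  · exact Pool.Agent.N237.Pen.not_dense w1 hWne
      (w2.trans (sdiff_subset_sdiff_left hUΩ)) w4

end Pool.Agent.Results.MP_67b65f_an.TotalDarkness
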